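import Pool.Agent.K7.H87.FJ7.Stm

/-!
# Automorphism groups of free products of three groups

`C` is any class of groups with the closure properties `ClosedE C` which contains the solvable groups
and the groups `F ⋊ Z` for all free groups `F` and all automorphisms of `F` (`Known C`). All this is
published for the class of the groups which satisfy the K-theoretic Farrell–Jones Conjecture with coefficients in
additive categories and finite wreath products.

Let `G = G₀ * G₁ * G₂` be a free product of three nontrivial groups.

1. `permSub M` is the group of the automorphisms of `G` which permute the conjugacy classes of the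
   factors. It is in `C` if and only if `Aut(G₀)`, `Aut(G₁)` and `Aut(G₂)` are in `C`. (By the theorem
   of Kurosh it is all of `Aut(G)` if the `Gᵢ` are freely indecomposable and not infinite cyclic.)

2. Let `Inn(Gᵢ) ≤ Qᵢ ≤ Aut(Gᵢ)`, and let `symSub Q` be the group of the automorphisms `α` of `G` such that
   for each `i` there are `c` in `G` and `φ` in `Qᵢ` with `α(x) = c φ(x) c⁻¹` for all `x` in `Gᵢ`.
   Then `symSub Q` is in `C` if and only if all `Qᵢ` are in `C`. The same holds for its image in
   `Out(G)`.

Outline of the proof. `symSub Q` is isomorphic to `G ⋊ (G ⋊ ∏ Qᵢ)`, where the first factor is the group of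
the inner automorphisms and the second one is generated by the partial conjugations of `Gᵢ₊₁` by the
elements of `Gᵢ`, `i = 0, 1, 2` modulo 3. That these partial conjugations generate their free product
modulo inner automorphisms is proved by ping-pong: for an automorphism `α` the factor `α(Gᵢ)` fixes a
vertex `vᵢ` of the Bass-Serre tree; a reduced product of partial conjugations ending with a letter of
`Gᵢ` has `vᵢ` strictly between the other two vertices. If `vᵢ` is between the other two vertices then
the sum of the distances can be decreased by a partial conjugation; if none of them is between the
others then `α` is inner up to automorphisms of the factors, because it is surjective. Both semidirect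
products are in `C` by the theorem on extensions whose kernels are free products
(`MP_490288_al.FreeProductExtensions`): a group `B` with a normal subgroup `Gᵢ` such that `B / Gᵢ` is
cyclic and `B` acts on `Gᵢ` through `Qᵢ` is an extension of a subgroup of `Qᵢ × B / Gᵢ` by an abelian
group.
-/

set_option autoImplicit false

namespace Pool.Agent.Results.MP_6374fb_al.AutomorphismsOfFreeProducts

open Pool.Agent.K7.H87.FJ7

theorem result (C : ∀ (G : Type) [Group G], Prop) (hC : Known C)
    (M : Fin 3 → Type) [∀ i, Group (M i)] [∀ i, Nontrivial (M i)] :
    (C (permSub M) ↔ ∀ i, C (GAut (M i))) ∧
    ∀ Q : ∀ i, Subgroup (GAut (M i)), HasInner Q →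
      (C (symSub Q) ↔ ∀ i, C (Q i)) ∧
      (C (symSub Q ⧸ (innSub M).subgroupOf (symSub Q)) ↔ ∀ i, C (Q i)) :=
  sym_result hC

end Pool.Agent.Results.MP_6374fb_al.AutomorphismsOfFreeProducts
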