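import Pool.Agent.K7.H29.LU.Main

/-!
# General linear groups of rings with an ideal which has local units

`C` is any class of groups with the closure properties `ClosedE C`, all of which are published for the
class of the groups which satisfy the K-theoretic Farrell–Jones conjecture with coefficients in additive
categories and finite wreath products.

Let `S` be a ring and `I` a two-sided ideal with local units: each finite subset of `I` is contained in
`e S e` for some idempotent `e` in `I`. Suppose that `GL_m(e S e)` is in `C` for all idempotents `e` in `I` and
all `m`. Then

1. if `N` is a normal subgroup of a group `G` with `G ⧸ N` in `C`, and `ρ : G → GL_n(S)` is a homomorphism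
   which is injective on `N` and maps `N` to matrices which are congruent to `1` modulo `I`, then `G` is in `C`;
2. if `GL_n(S ⧸ I)` is in `C` then `GL_n(S)` is in `C`.

Examples. (a) `S` is the ring of all endomorphisms of an infinite dimensional vector space `V` over a field
`F`, and `I` the ideal of those of finite rank; then `e S e` is a ring of matrices over `F`. If `F` is a finite
field, a number field or `F_q(t)` then `GL_n(F)` satisfies the conjecture (Rüping, Kammeyer–Lück–Rüping), so
for every group `G` of automorphisms of `V` the conjecture for `G` follows from that for `G ⧸ N`, where `N` is the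
group of the finitary automorphisms in `G`, and every extension of a Farrell–Jones group by `GL(∞, F)` whose
conjugation action is induced by automorphisms of `V` is a Farrell–Jones group.
(b) `S` is the ring of the row and column finite matrices over a ring `R`, for instance `R = Z`, with any
infinite set of indices, or any subring which contains all the finite matrices.
(c) `S` is the Jacobson (Toeplitz) algebra `R⟨x, y | y x = 1⟩`; then `I` consists of the finite matrices over `R` and
`S ⧸ I = R[x, 1/x]`. So `GL_n` of the Jacobson algebra over a finite field is a Farrell–Jones group, and so is the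
group of units of the Jacobson algebra over `Z`. The same applies to other Leavitt path algebras
and the ideals generated by vertices which do not lead to cycles.

Outline of the proof. Let `g` be in `G`, `T = ρ g`, and let `E` be a finite subset of `N`. Choose an idempotent
`e` in `I` such that `ρ(x) - 1` is in `e S e` for `x` in `E`, and then an idempotent `e'` in `I` such that
`e`, `a = T e` and `b = e T⁻¹` are in `e' S e'`. Conjugation by `T` maps `1 + y` to `1 + a y b` for `y` in `e S e`. Since
`b a = e`, it is induced on the matrices `diag(1 + y, 1)` by conjugation with a matrix in `GL_2(S)`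
which is congruent to `1` modulo `e' S e'`, and it is easy to write down. So conjugation by `g` on `E` is
realized in a subgroup of `GL_m(e' S e')`, and the theorem `MP_490288_al.RealizationCriterion` applies.
-/

set_option autoImplicit false

namespace Pool.Agent.Results.MP_6374fb_al.LocalUnits

open Pool.Agent.Y110.FJ Pool.Agent.K7.H29.LU

theorem result (C : ∀ (G : Type) [Group G], Prop) (hC : ClosedE C) (S : Type) [Ring S]
    (I : Ideal S) [I.IsTwoSided]
    (hI : ∀ X : Finset S, (∀ x ∈ X, x ∈ I) →
      ∃ e ∈ I, IsIdempotentElem e ∧ ∀ x ∈ X, e * x = x ∧ x * e = x)
    (hK : ∀ (e : S) (he : IsIdempotentElem e), e ∈ I → ∀ m : ℕ,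
      C ((Matrix (Fin m) (Fin m) he.Corner)ˣ)) (n : ℕ) :
    (∀ (G : Type) [Group G] (N : Subgroup G) [N.Normal] (ρ : G →* (Matrix (Fin n) (Fin n) S)ˣ),
      C (G ⧸ N) → (∀ x ∈ N, ρ x = 1 → x = 1) →
      (∀ x ∈ N, ∀ i j, (ρ x).val i j - (1 : Matrix (Fin n) (Fin n) S) i j ∈ I) → C G) ∧
    (C ((Matrix (Fin n) (Fin n) (S ⧸ I))ˣ) → C ((Matrix (Fin n) (Fin n) S)ˣ)) :=
  ⟨fun _ _ N _ ρ hQ hinj hN => local_units hC I hI hK n N hQ ρ hinj hN,
    fun hQ => gl_quot hC I hI hK n hQ⟩

end Pool.Agent.Results.MP_6374fb_al.LocalUnits
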