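import Pool.Agent.K7.H29.GP.Fin2

/-!
# Extensions whose kernel is a right-angled Coxeter group or a graph product of finite groups

`C` is any class of groups with the closure properties `ClosedE C` which contains the groups `F ⋊ Z` for
all free groups `F` and all automorphisms of `F`. All this is published for the class of groups which
satisfy the K-theoretic Farrell–Jones conjecture with coefficients in additive categories and finite
wreath products.

Let `N` be a normal subgroup of `G` with `G ⧸ N` in `C`, and let `N` be the graph product of finitely many
finite groups over an arbitrary finite graph, for instance any right-angled Coxeter group of finite rank.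
Then `G` is in `C`. There is no hypothesis on the extension: `G` may induce arbitrary automorphisms of `N`,
for instance transvections, which do not preserve the conjugacy classes of the vertex groups. For example
`N ⋊ Z` is in `C` for all automorphisms of `N`.

Outline of the proof.

* Let `M` be the normal closure of a vertex group `A v` in `N`. It is the free product of the conjugates
  `x A_v x⁻¹`, `x ∈ U / L`, where `U` is generated by the other vertex groups and `L` by those of the
  neighbours. By induction the kernel of `N → ∏ A w` is torsion-free, as `M` meets it in a free group.
* The group `g` acts on the finite set of the homomorphisms from `N` to the product of the `A w`, so that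
  some power `g ^ k` is compatible with the projections to all `A w`. Then the torsion elements
  `g ^ k a g ^ (-k)`, `a ∈ A v`, have trivial image in `U`, so they form a finite subgroup of the free product
  `M`. It is conjugate into a factor. So `g ^ k` preserves the `N`-conjugacy classes of all vertex groups.
* So the theorem on extensions by graph products (`MP_2a547c_gt.GraphProductExtensions`) applies.
-/

set_option autoImplicit false

namespace Pool.Agent.Results.MP_6374fb_al.RightAngledKernels

open Pool.Agent.Y110.FJ Pool.Agent.K7.H29.GP

theorem result (C : ∀ (G : Type) [Group G], Prop) (hC : ClosedE C)
    (hF : ∀ (X : Type) (α : MulAut (FreeGroup X)),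
      C (FreeGroup X ⋊[zpowersHom (MulAut (FreeGroup X)) α] Multiplicative ℤ))
    (G V : Type) [Group G] [Finite V] (N : Subgroup G) [N.Normal] (hQ : C (G ⧸ N))
    (Λ : SimpleGraph V) (A : V → Subgroup G) (hA : ∀ v, Finite (A v))
    (hN : IsGraphProd Λ N A) : C G :=
  fin_ext hC hF hN hQ

end Pool.Agent.Results.MP_6374fb_al.RightAngledKernels
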