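import Pool.Agent.K7.H41.FL.TMain

/-!
# Extensions of Farrell–Jones groups by linear groups with semilinear outer action

`C` is any class of groups with the closure properties `ClosedE C` (of the starting files), all of
which are known for the class of the groups that satisfy the full Farrell–Jones conjecture.

* `TwistedCriterion C`: let `N` be normal in `G` with `G ⧸ N` in `C`. If the conjugations of finite
  subsets of `N` by elements of `G` are realized by semilinear automorphisms `p` of modules of any
  rank over rings `R` with `GL_n(R)` in `C`, the elements concerned of `N` acting linearly and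
  finitarily, and all orbits of the automorphism of `R` that belongs to `p` are finite, then `G` is
  in `C`.
* `SemilinearKernels C`: the version for semilinear actions of `G`.
* `StandardKernels C`: `N` is a group of `d × d` matrices over a field `K` and each element of `G`
  acts on it by `x ↦ a σ(x) a⁻¹` or `x ↦ a (σ(x)⁻¹)ᵀ a⁻¹`, `σ` an automorphism of `K` with finite
  orbits, for instance any automorphism if `K` is algebraic over its prime field.
* `FiniteRankSplitFor`: over division rings finite rank suffices.
-/

set_option autoImplicit false

namespace Pool.Agent.Results.MP_6374fb_al.TwistedKernels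

open Pool.Agent.Y110.FJ Pool.Agent.K7.H41.FL

theorem result (C : ∀ (G : Type) [Group G], Prop) (hC : ClosedE C) :
    TwistedCriterion C ∧ SemilinearKernels C ∧ StandardKernels C ∧ FiniteRankSplitFor := by
  refine ⟨twisted hC, semilinear hC, standard hC, ?_⟩
  intro K _ V _ _ X hX h A hA
  obtain ⟨W, Y, h1, h2, h3, h4, h5⟩ := locSplit_of_finite ((fun t => t - 1) '' X) (hX.image _)
    (by
      rintro _ ⟨t, ht, rfl⟩
      exact h t ht) A hA
  refine ⟨W, Y, h1, h2, h3, h4, ?_⟩
  rintro φ ⟨t, ht, rfl⟩
  obtain ⟨h6, h7⟩ := h5 _ ⟨t, ht, rfl⟩
  refine ⟨fun w hw => ?_, fun y hy => ?_⟩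
  · have h8 : t w - w ∈ W := h6 w hw
    have h9 := W.add_mem h8 hw
    rwa [sub_add_cancel] at h9
  · have h8 : t y - y = 0 := h7 y hy
    exact sub_eq_zero.1 h8

end Pool.Agent.Results.MP_6374fb_al.TwistedKernels
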